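import Mathlib

set_option autoImplicit false

/-!
# A polynomial endomorphism whose stable image is not a retract

For every field `K` of characteristic zero and every `n ≥ 3` the endomorphism
`φ : x ↦ x, y ↦ y + x z, z ↦ z - 2 y z - x z²` of `K[x₁, …, xₙ]` (with `(x, y, z) = (x₁, x₂, x₃)`
and the other variables fixed) has a stable image which is not a retract.  The endomorphism fixes
`x` and `q = x z + y²`, and on the curve `x, q = const ≠ 0` it acts by `y ↦ y - y² + q`, a map of
degree two; so elements of the stable image do not depend on the sign of `y`.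
-/

namespace Pool.Agent.Results.MP_0f9f23_al.StableImageNotRetract

open MvPolynomial

universe u

/-- The stable image `⋂_{k ≥ 1} φ^k(Pₙ)` of an endomorphism `φ` of `Pₙ = K[x₁, …, xₙ]`. -/
noncomputable def stableImage {K : Type u} [Field K] {n : ℕ}
    (φ : MvPolynomial (Fin n) K →ₐ[K] MvPolynomial (Fin n) K) :
    Subalgebra K (MvPolynomial (Fin n) K) :=
  ⨅ k : ℕ, ⨅ _ : 1 ≤ k, (φ ^ k).range

/-- A subalgebra `R` of `Pₙ` is a retract if some `K`-algebra homomorphism `π : Pₙ → R`
satisfies `π r = r` for all `r ∈ R`. -/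
def IsRetract {K : Type u} [Field K] {n : ℕ} (R : Subalgebra K (MvPolynomial (Fin n) K)) : Prop :=
  ∃ π : MvPolynomial (Fin n) K →ₐ[K] R, ∀ r : R, π r = r

section
variable (K : Type u) [Field K] (m : ℕ)

/-- the images of the variables -/
noncomputable def F : Fin (m + 3) → MvPolynomial (Fin (m + 3)) K :=
  fun i => if i = 0 then X 0 else if i = 1 then X 1 + X 0 * X 2
    else if i = 2 then X 2 - 2 * X 1 * X 2 - X 0 * X 2 ^ 2 else X i

theorem ne10 : (1 : Fin (m + 3)) ≠ 0 := by simp
theorem ne20 : (2 : Fin (m + 3)) ≠ 0 := by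
  intro h; have := congrArg Fin.val h; simp [Nat.mod_eq_of_lt] at this
theorem ne21 : (2 : Fin (m + 3)) ≠ 1 := by
  intro h; have := congrArg Fin.val h; simp [Nat.mod_eq_of_lt] at this

theorem F0 : F K m 0 = X 0 := by simp [F]
theorem F1 : F K m 1 = X 1 + X 0 * X 2 := by simp [F]
theorem F2 : F K m 2 = X 2 - 2 * X 1 * X 2 - X 0 * X 2 ^ 2 := by simp [F, ne20, ne21]
theorem Fi (i : Fin (m + 3)) (h0 : i ≠ 0) (h1 : i ≠ 1) (h2 : i ≠ 2) : F K m i = X i := by
  simp [F, h0, h1, h2]

noncomputable def φ : MvPolynomial (Fin (m + 3)) K →ₐ[K] MvPolynomial (Fin (m + 3)) K :=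
  aeval (F K m)

/-- the restriction of a polynomial to a curve `x = a, x z + y² = q` -/
noncomputable def res (a q : K) (u : Fin (m + 3) → K) :
    MvPolynomial (Fin (m + 3)) K →ₐ[K] Polynomial K :=
  aeval (fun i => if i = 0 then Polynomial.C a else if i = 1 then Polynomial.X
    else if i = 2 then Polynomial.C a⁻¹ * (Polynomial.C q - Polynomial.X ^ 2)
    else Polynomial.C (u i))

theorem res_φ (a q : K) (ha : a ≠ 0) (u : Fin (m + 3) → K) (f : MvPolynomial (Fin (m + 3)) K) :
    res K m a q u (φ K m f) = (res K m a q u f).comp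
      (Polynomial.X - Polynomial.X ^ 2 + Polynomial.C q) := by
  have haa : (Polynomial.C a : Polynomial K) * Polynomial.C a⁻¹ = 1 := by
    rw [← Polynomial.C_mul, mul_inv_cancel₀ ha, Polynomial.C_1]
  induction f using MvPolynomial.induction_on with
  | C c => simp [φ, res]
  | add p q hp hq => simp only [map_add, hp, hq, Polynomial.add_comp]
  | mul_X p i hp =>
    rw [map_mul, map_mul, hp, map_mul, Polynomial.mul_comp]
    congr 1
    rw [φ, aeval_X]
    by_cases h0 : i = 0
    · subst h0
      rw [F0]; simp [res]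
    · by_cases h1 : i = 1
      · subst h1
        rw [F1]
        simp only [res, map_add, map_mul, aeval_X, ne10, ne20, ne21, if_true, if_false,
          Polynomial.X_comp]
        linear_combination (Polynomial.C q - Polynomial.X ^ 2) * haa
      · by_cases h2 : i = 2
        · subst h2
          rw [F2]
          simp only [res, map_sub, map_mul, map_pow, map_ofNat, aeval_X, ne10, ne20, ne21,
            if_true, if_false, Polynomial.mul_comp, Polynomial.C_comp, Polynomial.sub_comp,
            Polynomial.pow_comp, Polynomial.X_comp]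
          linear_combination (-(Polynomial.C a⁻¹ * (Polynomial.C q - Polynomial.X ^ 2) ^ 2)) * haa
        · rw [Fi K m i h0 h1 h2]
          simp [res, h0, h1, h2]

theorem natDegree_res_pow (a q : K) (ha : a ≠ 0) (u : Fin (m + 3) → K) (k : ℕ)
    (f : MvPolynomial (Fin (m + 3)) K) :
    (res K m a q u ((φ K m ^ k) f)).natDegree = (res K m a q u f).natDegree * 2 ^ k := by
  have h2 : (Polynomial.X - Polynomial.X ^ 2 + Polynomial.C q : Polynomial K).natDegree = 2 := by
    compute_degree!
  induction k generalizing f with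
  | zero => simp
  | succ k ih =>
    rw [pow_succ', AlgHom.mul_apply, res_φ K m a q ha u, Polynomial.natDegree_comp, ih, h2,
      pow_succ]
    ring

/-- elements of the stable image restrict to constants on the curves -/
theorem res_const (a q : K) (ha : a ≠ 0) (u : Fin (m + 3) → K)
    (f : MvPolynomial (Fin (m + 3)) K) (hf : f ∈ stableImage (φ K m)) :
    ∃ c : K, res K m a q u f = Polynomial.C c := by
  have h : ∀ k : ℕ, 2 ^ (k + 1) ∣ (res K m a q u f).natDegree := by
    intro k
    simp only [stableImage, Algebra.mem_iInf] at hf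
    obtain ⟨g, hg⟩ := hf (k + 1) (by omega)
    have hg' : (φ K m ^ (k + 1)) g = f := hg
    rw [← hg', natDegree_res_pow K m a q ha u]
    exact Dvd.intro_left _ rfl
  have h0 : (res K m a q u f).natDegree = 0 := by
    by_contra hne
    have h1 := Nat.le_of_dvd (Nat.pos_of_ne_zero hne) (h (res K m a q u f).natDegree)
    have h2 : (res K m a q u f).natDegree + 1 < 2 ^ ((res K m a q u f).natDegree + 1) :=
      Nat.lt_two_pow_self
    omega
  exact ⟨_, Polynomial.eq_C_of_natDegree_eq_zero h0⟩

theorem eval_res (a q t : K) (u : Fin (m + 3) → K) (f : MvPolynomial (Fin (m + 3)) K) :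
    (res K m a q u f).eval t = eval (fun i => if i = 0 then a else if i = 1 then t
      else if i = 2 then a⁻¹ * (q - t ^ 2) else u i) f := by
  induction f using MvPolynomial.induction_on with
  | C c => simp [res]
  | add p q hp hq => simp only [map_add, Polynomial.eval_add, hp, hq]
  | mul_X p i hp =>
    rw [map_mul, Polynomial.eval_mul, hp, map_mul, eval_X]
    congr 1
    rw [res, aeval_X]
    split_ifs <;> simp

/-- the sign change of the second coordinate -/
noncomputable def σ : MvPolynomial (Fin (m + 3)) K →ₐ[K] MvPolynomial (Fin (m + 3)) K :=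
  aeval (fun i => if i = 1 then - X 1 else X i)

theorem eval_σ (v : Fin (m + 3) → K) (f : MvPolynomial (Fin (m + 3)) K) :
    eval v (σ K m f) = eval (fun i => if i = 1 then - v 1 else v i) f := by
  induction f using MvPolynomial.induction_on with
  | C c => simp [σ]
  | add p q hp hq => simp only [map_add, hp, hq]
  | mul_X p i hp =>
    rw [map_mul, map_mul, hp, map_mul, eval_X]
    congr 1
    rw [σ, aeval_X]
    split_ifs <;> simp

theorem X_mem (f : MvPolynomial (Fin (m + 3)) K) (hf : φ K m f = f) :
    f ∈ stableImage (φ K m) := by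
  simp only [stableImage, Algebra.mem_iInf]
  intro k _
  refine ⟨f, ?_⟩
  change (φ K m ^ k) f = f
  induction k with
  | zero => simp
  | succ k ih =>
    by_cases hk : 1 ≤ k
    · rw [pow_succ', AlgHom.mul_apply, ih hk, hf]
    · have : k = 0 := by omega
      subst this
      simpa using hf

theorem φ_x : φ K m (X 0) = X 0 := by simp [φ, F0]

theorem φ_q : φ K m (X 0 * X 2 + X 1 ^ 2) = X 0 * X 2 + X 1 ^ 2 := by
  simp only [φ, map_add, map_mul, map_pow, aeval_X, F0, F1, F2]
  ring

variable [CharZero K]

theorem σ_eq (f : MvPolynomial (Fin (m + 3)) K) (hf : f ∈ stableImage (φ K m)) :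
    σ K m f = f := by
  have hX : X 0 * (σ K m f - f) = 0 := by
    apply MvPolynomial.funext
    intro v
    rw [map_mul, eval_X, map_sub, map_zero, eval_σ]
    by_cases h0 : v 0 = 0
    · rw [h0, zero_mul]
    · obtain ⟨c, hc⟩ := res_const K m (v 0) (v 0 * v 2 + v 1 ^ 2) h0 v f hf
      have e1 := eval_res K m (v 0) (v 0 * v 2 + v 1 ^ 2) (v 1) v f
      have e2 := eval_res K m (v 0) (v 0 * v 2 + v 1 ^ 2) (- v 1) v f
      rw [hc, Polynomial.eval_C] at e1 e2
      have h1 : (fun i => if i = 0 then v 0 else if i = 1 then v 1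
          else if i = 2 then (v 0)⁻¹ * (v 0 * v 2 + v 1 ^ 2 - v 1 ^ 2) else v i) = v := by
        funext i
        split_ifs with g0 g1 g2
        · rw [g0]
        · rw [g1]
        · rw [g2]; field_simp; ring
        · rfl
      have h2 : (fun i => if i = 0 then v 0 else if i = 1 then - v 1
          else if i = 2 then (v 0)⁻¹ * (v 0 * v 2 + v 1 ^ 2 - (- v 1) ^ 2) else v i) =
          fun i => if i = 1 then - v 1 else v i := by
        funext i
        by_cases g0 : i = 0
        · subst g0; simp [(ne10 m).symm]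
        · by_cases g1 : i = 1
          · subst g1; simp
          · by_cases g2 : i = 2
            · subst g2
              simp only [ne20, ne21, if_true, if_false]
              field_simp; ring
            · simp [g0, g1, g2]
      rw [h1] at e1
      rw [h2] at e2
      rw [← e1, ← e2, sub_self, mul_zero]
  exact sub_eq_zero.mp ((mul_eq_zero.mp hX).resolve_left (X_ne_zero 0))

theorem not_retract : ¬ IsRetract (stableImage (φ K m)) := by
  rintro ⟨π, hπ⟩
  have hx : (π (X 0) : MvPolynomial (Fin (m + 3)) K) = X 0 := by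
    have := hπ ⟨X 0, X_mem K m _ (φ_x K m)⟩
    exact congrArg Subtype.val this
  have hq : (π (X 0 * X 2 + X 1 ^ 2) : MvPolynomial (Fin (m + 3)) K) = X 0 * X 2 + X 1 ^ 2 := by
    have := hπ ⟨X 0 * X 2 + X 1 ^ 2, X_mem K m _ (φ_q K m)⟩
    exact congrArg Subtype.val this
  have h1 : (X 0 : MvPolynomial (Fin (m + 3)) K) * (π (X 2) : MvPolynomial (Fin (m + 3)) K) +
      (π (X 1) : MvPolynomial (Fin (m + 3)) K) ^ 2 = X 0 * X 2 + X 1 ^ 2 := by
    rw [← hq, map_add, map_mul, map_pow]
    push_cast
    rw [hx]
  obtain ⟨a, ha⟩ : ∃ a : MvPolynomial (Fin (m + 3)) K,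
      a = (π (X 1) : MvPolynomial (Fin (m + 3)) K) := ⟨_, rfl⟩
  have haR : a ∈ stableImage (φ K m) := by rw [ha]; exact (π (X 1)).2
  have hσ := σ_eq K m a haR
  rw [← ha] at h1
  -- restrict to the line x = z = 0
  let ρ : MvPolynomial (Fin (m + 3)) K →ₐ[K] Polynomial K :=
    aeval (fun i => if i = 1 then Polynomial.X else 0)
  have hρ2 : (ρ a) ^ 2 = Polynomial.X ^ 2 := by
    have := congrArg ρ h1
    simpa [ρ, (ne10 m).symm, ne20, ne21] using this
  have hρσ : ∀ f, ρ (σ K m f) = (ρ f).comp (- Polynomial.X) := by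
    intro f
    induction f using MvPolynomial.induction_on with
    | C c => simp [ρ, σ]
    | add p q hp hq => simp only [map_add, hp, hq, Polynomial.add_comp]
    | mul_X p i hp =>
      rw [map_mul, map_mul, hp, map_mul, Polynomial.mul_comp]
      congr 1
      by_cases h : i = 1
      · subst h; simp [ρ, σ]
      · simp [ρ, σ, h]
  have h3 : ρ a = (ρ a).comp (- Polynomial.X) := by rw [← hρσ, hσ]
  have h4 : (ρ a - Polynomial.X) * (ρ a + Polynomial.X) = 0 := by
    linear_combination hρ2
  rcases mul_eq_zero.mp h4 with h | h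
  · have h5 : ρ a = Polynomial.X := sub_eq_zero.mp h
    rw [h5, Polynomial.X_comp] at h3
    have h6 := congrArg (Polynomial.eval 1) h3
    simp at h6
    norm_num [eq_neg_iff_add_eq_zero] at h6
  · have h5 : ρ a = - Polynomial.X := eq_neg_of_add_eq_zero_left h
    rw [h5] at h3
    have h6 := congrArg (Polynomial.eval 1) h3
    simp at h6
    norm_num [neg_eq_iff_add_eq_zero] at h6

end

/-- For every field `K` of characteristic zero and every `n ≥ 3` there is an endomorphism `φ` of
`K[x₁, …, xₙ]` whose stable image is not a retract. -/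
theorem result (K : Type u) [Field K] [CharZero K] (n : ℕ) (hn : 3 ≤ n) :
    ∃ φ : MvPolynomial (Fin n) K →ₐ[K] MvPolynomial (Fin n) K,
      ¬ IsRetract (stableImage φ) := by
  obtain ⟨m, rfl⟩ : ∃ m, n = m + 3 := ⟨n - 3, by omega⟩
  exact ⟨φ K m, not_retract K m⟩

end Pool.Agent.Results.MP_0f9f23_al.StableImageNotRetract
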